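import Pool.Agent.H51.MO.TargetsB
import Pool.Agent.H96.KX.CORE

/-! # MP_c62aed_lc, monotone circuits: the core inequality (helper78, after H96/KX/CORE) -/

namespace Pool.Agent.H78.MO

open Finset Pool.Agent.H51.MO
open Pool.Agent.H1.LP (Clause viol Loc Sys Agree supp ip kk)
open Pool.Agent.H96.KX

/-- the indicator function -/
noncomputable def chi {X : Type} (A : Finset X) (x : X) : ℝ :=
  open Classical in if x ∈ A then 1 else 0

theorem chi_mem {X : Type} {A : Finset X} {x : X} (h : x ∈ A) : chi A x = 1 := if_pos h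

theorem chi_not {X : Type} {A : Finset X} {x : X} (h : x ∉ A) : chi A x = 0 := if_neg h

theorem chi_nonneg {X : Type} (A : Finset X) (x : X) : 0 ≤ chi A x := by
  by_cases h : x ∈ A
  · rw [chi_mem h]; exact zero_le_one
  · rw [chi_not h]

theorem sum_chi {X : Type} [Fintype X] (A : Finset X) (f : X → ℝ) :
    ∑ x, chi A x * f x = ∑ x ∈ A, f x := by
  have h1 : ∑ x ∈ A, chi A x * f x = ∑ x, chi A x * f x :=
    Finset.sum_subset (Finset.subset_univ A) fun x _ hx => by rw [chi_not hx, zero_mul]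
  have h2 : ∑ x ∈ A, chi A x * f x = ∑ x ∈ A, f x :=
    Finset.sum_congr rfl fun x hx => by rw [chi_mem hx, one_mul]
  exact h1.symm.trans h2

theorem sum_ind {X Y : Type} [Fintype X] [Fintype Y]
    (K : Y → X → ℝ) (A : Finset Y) (B : Finset X) :
    ∑ a, ∑ x, chi A a * chi B x * K a x = ∑ a ∈ A, ∑ x ∈ B, K a x := by
  refine Eq.trans ?_ (sum_chi A (fun a => ∑ x ∈ B, K a x))
  refine Finset.sum_congr rfl fun a _ => ?_
  rw [← sum_chi B, Finset.mul_sum]
  exact Finset.sum_congr rfl fun x _ => by ring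

theorem sum_ind_sq {X : Type} [Fintype X] (A : Finset X) :
    ∑ a, chi A a ^ 2 = A.card := by
  have h1 : ∀ a, chi A a ^ 2 = chi A a * chi A a := fun a => sq _
  rw [Finset.sum_congr rfl fun a _ => h1 a, sum_chi]
  have h2 : ∑ x ∈ A, chi A x = ∑ x ∈ A, (1 : ℝ) := Finset.sum_congr rfl fun x hx => chi_mem hx
  rw [h2]
  simp

theorem bil_chi {H U Z : Type} [Fintype H] [Fintype U] (h : H → U → Z) {N : ℕ}
    (D : (Fin N → Z) → ℝ) (A : Finset (Fin N → H)) (B : Finset (Fin N → U)) :
    bil h D (chi A) (chi B) = ∑ a ∈ A, ∑ x ∈ B, D (fun i => h (a i) (x i)) :=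
  sum_ind (fun (a : Fin N → H) (x : Fin N → U) => D (fun i => h (a i) (x i))) A B

theorem fin_arith' (Ac UB pB q4 al HU HB R W G pp : ℝ) (hU : 0 < UB) (hq4 : 0 ≤ q4)
    (hpB0 : 0 ≤ pB) (hal : 0 ≤ al) (hHB : 0 ≤ HB) (hR : 0 ≤ R) (hW : 0 ≤ W) (hG : 0 ≤ G)
    (hUH : HU = UB * HB) (hpB : pB ≤ pp) (har : al * G ≤ 1)
    (key : Ac * UB ≤ R * W * (pB * (q4 * al * HU))) :
    Ac * G ≤ R * pp * q4 * W * HB := by
  have key2 : Ac ≤ R * W * (pB * (q4 * al * HB)) := by
    have e1 : R * W * (pB * (q4 * al * HU)) = (R * W * (pB * (q4 * al * HB))) * UB := by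
      rw [hUH]
      ring
    rw [e1] at key
    exact le_of_mul_le_mul_right key hU
  have hpp : 0 ≤ pp := hpB0.trans hpB
  calc Ac * G ≤ (R * W * (pB * (q4 * al * HB))) * G := by gcongr
    _ = R * pB * q4 * W * HB * (al * G) := by ring
    _ ≤ R * pp * q4 * W * HB * 1 := by gcongr
    _ = _ := by ring

theorem bd_nonneg {n : ℕ} {C : Circuit n} {W : ℝ} (h : Bd C W) : 0 ≤ W := by
  rcases h with h | ⟨t, p, -, h⟩
  · exact (Nat.cast_nonneg _).trans h
  · refine le_trans ?_ h
    positivity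

theorem pf_MCORE (hHA : S_HASH) (hBP : S_BIP) (hBZ : S_BIZ) (hMA : S_MAS) (hPA : S_PDA)
    (hPP : S_PDP) (hAB : S_MABS) (hNP : S_NPR) (hFR : S_FRM) (hBL : S_BASEL)
    (hLO : Pool.Agent.H1.LP.S_LOC) (hEN : Pool.Agent.H1.LP.S_ENC) : S_MCORE := by
  classical
  intro E L n B hE hL hkB hBn
  have hkE : kk E = 2 * (4 * E + 1) * E ^ 2 := rfl
  have hkE1 : 1 ≤ kk E := by
    rw [hkE]
    have : 0 < 2 * (4 * E + 1) * E ^ 2 := by positivity
    omega
  have hkE2 : E ≤ kk E := by
    rw [hkE]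
    nlinarith
  have hB0 : 0 < B := by omega
  obtain ⟨p, hp, hplt, hple, T, Ys, hT, hsupp, hz⟩ := hBL E B (by omega) (by
    rw [← hkE]
    omega)
  have ht1 : 1 ≤ B / E := by
    rw [Nat.le_div_iff_mul_le (by omega)]
    omega
  have h8 : 16 * (B / E) ≤ B := by
    have h2 : E * (B / E) ≤ B := Nat.mul_div_le B E
    have h3 : 16 * (B / E) ≤ E * (B / E) := Nat.mul_le_mul_right _ hE
    omega
  obtain ⟨d, hd⟩ : ∃ d, B - 8 * (B / E) = d := ⟨_, rfl⟩
  obtain ⟨S, hS⟩ := hLO p B (4 * E * B) (B / E) (B - 8 * (B / E)) Ys ht1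
  have hT' : ∀ i, (T i).card = kk E := hT
  have hrow : ∀ i, Ys.A i ∈ S.La ∧ S.ga (Ys.A i) = Ys.be i := by
    intro i
    apply hS
    calc (supp (Ys.A i)).card ≤ (T i).card := card_le_card (hsupp i)
      _ = kk E := hT' i
      _ ≤ _ := by omega
  obtain ⟨b, hb⟩ : ∃ b, (4 * E + 1) * (L + 1) = b := ⟨_, rfl⟩
  simp only [hb] at hBn ⊢
  obtain ⟨asg, dec, cl, hda, hsat, hcard⟩ := hEN n B b hBn
  have hpR : (p : ℝ) ≤ 2 ^ (4 * E + 1) := by exact_mod_cast hple
  have hp0 : (0 : ℝ) < p := by exact_mod_cast (Fact.out : p.Prime).pos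
  have hp1 : (1 : ℝ) ≤ p := by exact_mod_cast (Fact.out : p.Prime).one_lt.le
  -- the embedding of the block values
  have hcU : Fintype.card (Fin (L + 1) → ZMod p) = p ^ (L + 1) := by
    rw [Fintype.card_fun, ZMod.card, Fintype.card_fin]
  have hcH : Fintype.card (Fin L → ZMod p) = p ^ L := by
    rw [Fintype.card_fun, ZMod.card, Fintype.card_fin]
  obtain ⟨io⟩ : Nonempty ((Fin (L + 1) → ZMod p) ↪ (Fin b → Bool)) := by
    apply Function.Embedding.nonempty_of_card_le
    rw [hcU, Fintype.card_fun, Fintype.card_bool, Fintype.card_fin, ← hb, pow_mul]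
    exact Nat.pow_le_pow_left hple _
  set al : (Fin B → Fin L → ZMod p) → Fin B → (Fin b → Bool) → ZMod p := fun a j q =>
    Function.extend io (hsh p L (a j)) (fun _ => 0) q with hal
  have hal' : ∀ a j u, al a j (io u) = hsh p L (a j) u := by
    intro a j u
    exact io.injective.extend_apply _ _ _
  have hform := fun a : Fin B → Fin L → ZMod p =>
    hFR p B (4 * E * B) b n T Ys.A Ys.be (al a) dec cl hsupp hsat
  choose m phi hm hphi hsum hviol using hform
  have hprs : (prs (b := b) T).card = 4 * E * B * 2 ^ (b * kk E) := hNP B (4 * E * B) b (kk E) T hT'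
  have hvlow : ∀ a y, (4 * E - 3) * B ≤ viol (phi a) y := by
    intro a y
    rw [hviol a y]
    exact hz _
  have hvm : ∀ a y, viol (phi a) y ≤ m a := by
    intro a y
    unfold viol
    refine (card_le_univ _).trans ?_
    rw [Fintype.card_fin]
  have hm1 : ∀ a, 1 ≤ m a := by
    intro a
    have := (hvlow a (fun _ => false)).trans (hvm a _)
    have h4 : 1 ≤ (4 * E - 3) * B := Nat.mul_pos (by omega) hB0
    omega
  have hm2 : ∀ a, m a ≤ 4 * E * B * 2 ^ (b * kk E) := by
    intro a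
    rw [← hprs]
    exact hm a
  obtain ⟨Yc, hYc⟩ : ∃ Yc, Fintype.card (Fin B → Fin L → ZMod p) = Yc := ⟨_, rfl⟩
  have hYc' : Yc = (p ^ L) ^ B := by
    rw [← hYc, Fintype.card_fun, hcH, Fintype.card_fin]
  let e : Fin Yc ≃ (Fin B → Fin L → ZMod p) :=
    (Fintype.equivFinOfCardEq hYc).symm
  refine ⟨Yc, fun a => m (e a), fun a => phi (e a), ?_, ?_, ?_⟩
  · rw [hYc']
    have : 0 < p := (Fact.out : p.Prime).pos
    positivity
  · intro a
    refine ⟨hm1 _, hm2 _, ?_, ?_⟩
    · intro c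
      obtain ⟨q, -, hq⟩ := hphi (e a) c
      show (phi (e a) c).card = b * kk E ∧ ((phi (e a) c).image Prod.fst).card = b * kk E
      rw [hq]
      have := hcard (T q.1) q.2
      rw [hT' q.1] at this
      rw [mul_comm (kk E)] at this
      exact this
    · intro y
      have h5 : ((m (e a) : ℝ) / 2 ^ (b * kk E)) ≤ 4 * E * B := by
        rw [div_le_iff₀ (by positivity)]
        exact_mod_cast hm2 (e a)
      have hE1 : (0 : ℝ) < E := by
        have : 0 < E := by omega
        exact_mod_cast this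
      have h6 : (0 : ℝ) ≤ 1 - 1 / (E : ℝ) := by
        have : 1 / (E : ℝ) ≤ 1 := by
          rw [div_le_one hE1]
          have : 1 ≤ E := by omega
          exact_mod_cast this
        linarith
      calc (1 - 1 / (E : ℝ)) * ((m (e a) : ℝ) / 2 ^ (b * kk E))
          ≤ (1 - 1 / (E : ℝ)) * (4 * E * B) := by gcongr
        _ = (4 * E - 4) * B := by field_simp
        _ ≤ (4 * E - 3) * B := by
            have : (0 : ℝ) ≤ B := Nat.cast_nonneg B
            nlinarith
        _ = (((4 * E - 3) * B : ℕ) : ℝ) := by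
            rw [Nat.cast_mul, Nat.cast_sub (by omega)]
            push_cast
            ring
        _ ≤ _ := by exact_mod_cast hvlow (e a) y
  -- the inequality
  intro Ci A W hSo hA hBd
  set A' : Finset (Fin B → Fin L → ZMod p) := A.map e.toEmbedding with hA'
  have hA'c : A'.card = A.card := card_map _
  have hA'm : ∀ a ∈ A', Acc Ci (phi a) := by
    intro a ha
    obtain ⟨i, hi, rfl⟩ := mem_map.1 ha
    exact hA i hi
  -- the data of the abstract inequality
  let X := Fin B → Fin (L + 1) → ZMod p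
  let pt : X → (Fin n → Bool) := fun x => asg (fun j => io (x j))
  have hptd : ∀ x : X, dec (pt x) = fun j => io (x j) := fun x => hda _
  let FY : (Fin B → Fin L → ZMod p) → Set (Clause n) := fun a => Set.range (phi a)
  let FX : X → Set (Clause n) := fun x =>
    {C | ∃ q ∈ prs (b := b) T, C = cl (T q.1) q.2 ∧ C.Sat (pt x)}
  let inF : (Fin B → Fin L → ZMod p) → Clause n → Fin (4 * E * B) → Prop := fun a C i =>
    ∃ v, (i, v) ∈ prs (b := b) T ∧ C = cl (T i) v ∧
      ip (Ys.A i) (H1.LP.val (al a) v) ≠ Ys.be i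
  have hHne : Nonempty (Fin L → ZMod p) := inferInstance
  have hUne : Nonempty (Fin (L + 1) → ZMod p) := inferInstance
  have hPI : PairInd (hsh p L) := hHA p L
  have hQH : (Fintype.card (ZMod p) : ℝ) ^ 2 ≤ Fintype.card (Fin L → ZMod p) := by
    rw [ZMod.card, hcH]
    push_cast
    exact pow_le_pow_right₀ hp1 hL
  obtain ⟨ka, hka⟩ : ∃ ka : ℝ, ka = (p : ℝ) ^ B * Real.sqrt (kap (Fin L → ZMod p)
    (Fin (L + 1) → ZMod p) (ZMod p) B (B - 8 * (B / E) + 1)) := ⟨_, rfl⟩
  have hkap0 : 0 ≤ kap (Fin L → ZMod p) (Fin (L + 1) → ZMod p) (ZMod p) B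
      (B - 8 * (B / E) + 1) := by
    unfold kap
    positivity
  have hka0 : 0 ≤ ka := by
    rw [hka]
    positivity
  have hka' : ∀ s : ℝ, ka * Real.sqrt s = (p : ℝ) ^ B * Real.sqrt (kap (Fin L → ZMod p)
      (Fin (L + 1) → ZMod p) (ZMod p) B (B - 8 * (B / E) + 1) * s) := by
    intro s
    rw [hka, Real.sqrt_mul hkap0, mul_assoc]
  have hbil : ∀ (f : (Fin B → Fin L → ZMod p) → ℝ) (g : X → ℝ),
      ∑ a, ∑ x, f a * g x * PDz S (fun i => hsh p L (a i) (x i)) =
        bil (hsh p L) (PDz S) f g := fun f g => rfl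
  have hmass : ∀ a : Fin B → Fin L → ZMod p,
      ∑ x : X, PDz S (fun i => hsh p L (a i) (x i)) = Fintype.card X := by
    intro a
    have h1 := hMA (Fin L → ZMod p) (Fin (L + 1) → ZMod p) (ZMod p) (hsh p L) hPI B (PDz S) a
    rw [(hPA p B _ S).2, ZMod.card] at h1
    have h2 : (p : ℝ) ^ B ≠ 0 := by positivity
    have h3 := mul_right_cancel₀ h2 h1
    rw [h3]
    show _ = ((Fintype.card (Fin B → Fin (L + 1) → ZMod p) : ℕ) : ℝ)
    rw [Fintype.card_fun (α := Fin B), Fintype.card_fin]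
    push_cast
    rfl
  have hFYin : ∀ a, ∀ C ∈ FY a, ∃ i, inF a C i := by
    rintro a C ⟨c0, rfl⟩
    have h1 := hsum a (fun C => if C = phi a c0 then 1 else 0)
    have h2 : (1 : ℝ) ≤ ∑ c, (if phi a c = phi a c0 then (1 : ℝ) else 0) := by
      calc (1 : ℝ) = if phi a c0 = phi a c0 then (1 : ℝ) else 0 := by simp
        _ ≤ _ := Finset.single_le_sum (f := fun c => if phi a c = phi a c0 then (1 : ℝ) else 0)
            (fun c _ => by positivity) (mem_univ c0)
    have h3 : ∑ q ∈ (prs (b := b) T).filter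
        (fun q => ip (Ys.A q.1) (H1.LP.val (al a) q.2) ≠ Ys.be q.1),
        (if cl (T q.1) q.2 = phi a c0 then (1 : ℝ) else 0) ≠ 0 := by
      rw [← h1]
      exact (lt_of_lt_of_le one_pos h2).ne'
    obtain ⟨q, hq, hq1⟩ := Finset.exists_ne_zero_of_sum_ne_zero h3
    rw [mem_filter] at hq
    have hq2 : cl (T q.1) q.2 = phi a c0 := by
      by_contra hne
      exact hq1 (if_neg hne)
    exact ⟨q.1, q.2, hq.1, hq2.symm, hq.2⟩
  have hrect : ∀ (f : Finset (Fin B → Fin L → ZMod p)) (g : Finset X),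
      ∑ a ∈ f, ∑ x ∈ g, PDz S (fun i => hsh p L (a i) (x i)) =
      bil (hsh p L) (PDz S) (chi f) (chi g) := by
    intro f g
    exact (bil_chi (hsh p L) (PDz S) f g).symm
  have key := hAB X (Fin B → Fin L → ZMod p) n (4 * E * B)
    (fun a x => PDz S (fun i => hsh p L (a i) (x i))) ka FY FX inF
    (Nat.mul_pos (by omega) hB0) hka0 hmass hFYin
    (by
      intro A0 B0
      rw [hrect, hka']
      have h1 := hBP _ _ _ (hsh p L) hPI hQH B (B - 8 * (B / E) + 1) (PDz S) ((p : ℝ) ^ B)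
        (hPA p B _ S).1 (fun τ hτ => (hPP p B _ S τ (by omega)).1)
        (chi A0) (chi B0) (chi_nonneg A0) (chi_nonneg B0)
      rw [sum_ind_sq, sum_ind_sq] at h1
      exact h1)
    (by
      intro C0 i0 A0 B0 hA0 hB0'
      rw [hrect, hka']
      have h1 := hBZ _ _ _ (hsh p L) hPI hQH B (B - 8 * (B / E) + 1) (PDz S) ((p : ℝ) ^ B)
        (fun z => ip (Ys.A i0) z ≠ Ys.be i0) (hPA p B _ S).1
        (by
          intro τ hτ hW
          refine (hPP p B _ S τ (by omega)).2 (Ys.A i0) (hrow _).1 ?_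
          intro z hz1
          rw [(hrow i0).2]
          exact hW z hz1)
        (chi A0) (chi B0) (chi_nonneg A0)
        (by
          intro a x ha hx
          have ha0 : a ∈ A0 := by
            by_contra hne
            exact ha (chi_not hne)
          have hx0 : x ∈ B0 := by
            by_contra hne
            exact hx (chi_not hne)
          obtain ⟨-, v, hv1, hv2, hv3⟩ := hA0 a ha0
          have h3 : Agree (T i0) (fun j => io (x j)) v := by
            have h4 : ¬ (cl (T i0) v).Sat (pt x) := by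
              intro hs
              refine hB0' x hx0 ⟨(i0, v), hv1, hv2, ?_⟩
              rw [hv2]
              exact hs
            rw [hsat, not_not, hptd] at h4
            exact h4
          intro h5
          apply hv3
          rw [← h5]
          apply ip_cong _ _ (hsupp _)
          intro j hj
          show al a j (v j) = _
          rw [← h3 j hj, hal'])
      rw [sum_ind_sq, sum_ind_sq] at h1
      exact (le_abs_self _).trans h1)
    Ci A' W (fun a ha => hA'm a ha)
    (by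
      intro x
      obtain ⟨G, hG⟩ : ∃ G : Finset (Clause n), G =
        ((prs (b := b) T).image (fun q => cl (T q.1) q.2)).filter (fun C => C.Sat (pt x)) := ⟨_, rfl⟩
      have hGm : ∀ C, C ∈ G ↔ C ∈ FX x := by
        intro C
        rw [hG, mem_filter, mem_image]
        constructor
        · rintro ⟨⟨q, hq, rfl⟩, hs⟩
          exact ⟨q, hq, rfl, hs⟩
        · rintro ⟨q, hq, rfl, hs⟩
          exact ⟨⟨q, hq, rfl⟩, hs⟩
      have h1 := hSo G.card (fun i => (G.equivFin.symm i).1)
        (by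
          rw [hG, ← hprs]
          exact (card_filter_le _ _).trans card_image_le)
        (by
          intro i
          obtain ⟨q, hq, hq1, -⟩ := (hGm _).1 (G.equivFin.symm i).2
          show ((G.equivFin.symm i).1).card = b * kk E ∧
            (((G.equivFin.symm i).1).image Prod.fst).card = b * kk E
          rw [hq1]
          have := hcard (T q.1) q.2
          rw [hT' q.1] at this
          rw [mul_comm (kk E)] at this
          exact this)
        ⟨pt x, fun i => by
          obtain ⟨q, hq, -, hq2⟩ := (hGm _).1 (G.equivFin.symm i).2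
          exact hq2⟩
      have h2 : Set.range (fun i => (G.equivFin.symm i).1) = FX x := by
        ext C
        constructor
        · rintro ⟨i, rfl⟩
          exact (hGm _).1 (G.equivFin.symm i).2
        · intro hC
          exact ⟨G.equivFin ⟨C, (hGm C).2 hC⟩, by simp⟩
      intro h3
      apply h1
      show val Ci.gate (Set.range (fun i => (G.equivFin.symm i).1)) Ci.out
      rw [h2]
      exact h3)
    hBd
  -- cleaning up
  have hcX : ((Fintype.card X : ℕ) : ℝ) = ((p : ℝ) ^ (L + 1)) ^ B := by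
    show ((Fintype.card (Fin B → Fin (L + 1) → ZMod p) : ℕ) : ℝ) = _
    rw [Fintype.card_fun (α := Fin B), Fintype.card_fin, hcU]
    push_cast
    rfl
  have hka2 : ka ^ 2 = ((p : ℝ) ^ B) ^ 2 * (4 ^ B * ((p : ℝ) ^ 2 / (p : ℝ) ^ L) ^
      (B - 8 * (B / E) + 1) * ((p : ℝ) ^ (L + 1) * (p : ℝ) ^ L) ^ B) := by
    rw [hka, mul_pow, Real.sq_sqrt hkap0]
    unfold kap
    rw [ZMod.card, hcU, hcH]
    push_cast
    rfl
  have hRc : ((4 * E * B : ℕ) : ℝ) = 4 * E * B := by push_cast; ring
  rw [hA'c, hcX, hka2, hRc] at key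
  have hYR : (Yc : ℝ) = ((p : ℝ) ^ L) ^ B := by
    rw [hYc']
    push_cast
    rfl
  rw [hYR]
  have har := pow_arith (d := B - 8 * (B / E)) hplt hL
  have hW0 : 0 ≤ W := bd_nonneg hBd
  have hpB : ((p : ℝ) ^ B) ^ 2 ≤ (2 ^ (4 * E + 1)) ^ (2 * B) := by
    calc ((p : ℝ) ^ B) ^ 2 = (p : ℝ) ^ (2 * B) := by rw [← pow_mul, mul_comm]
      _ ≤ _ := by gcongr
  exact fin_arith' A.card (((p : ℝ) ^ (L + 1)) ^ B) (((p : ℝ) ^ B) ^ 2) (4 ^ B) _
    (((p : ℝ) ^ (L + 1) * (p : ℝ) ^ L) ^ B) (((p : ℝ) ^ L) ^ B) (4 * E * B) W _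
    ((2 ^ (4 * E + 1)) ^ (2 * B)) (by positivity) (by positivity) (by positivity) (by positivity)
    (by positivity) (by positivity) hW0 (by positivity) (by rw [mul_pow]) hpB har key

end Pool.Agent.H78.MO
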