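import Pool.Agent.H51.MO.TargetsB

namespace Pool.Agent.H78.MO

open Finset Pool.Agent.H51.MO
open Pool.Agent.H1.LP (Clause)

theorem sqrt_add_le (p1 p2 a1 a2 b : ℝ) (hp1 : 0 ≤ p1) (hp2 : 0 ≤ p2) (ha1 : 0 ≤ a1)
    (ha2 : 0 ≤ a2) (hb : 0 ≤ b) :
    Real.sqrt (p1 * (a1 * b)) + Real.sqrt (p2 * (a2 * b)) ≤
      Real.sqrt ((p1 + p2) * ((a1 + a2) * b)) := by
  apply Real.le_sqrt_of_sq_le
  have h1 : Real.sqrt (p1 * (a1 * b)) * Real.sqrt (p2 * (a2 * b)) =
      Real.sqrt (p1 * (a2 * b)) * Real.sqrt (p2 * (a1 * b)) := by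
    rw [← Real.sqrt_mul (by positivity), ← Real.sqrt_mul (by positivity)]
    congr 1; ring
  have h2 := Real.sq_sqrt (by positivity : 0 ≤ p1 * (a1 * b))
  have h3 := Real.sq_sqrt (by positivity : 0 ≤ p2 * (a2 * b))
  have h4 := Real.sq_sqrt (by positivity : 0 ≤ p1 * (a2 * b))
  have h5 := Real.sq_sqrt (by positivity : 0 ≤ p2 * (a1 * b))
  have h6 := sq_nonneg (Real.sqrt (p1 * (a2 * b)) - Real.sqrt (p2 * (a1 * b)))
  nlinarith

theorem pf_MPATH (hE : S_MEQN) : S_MPATH := by
  classical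
  intro X Y _ _ n K ka FY FX hka hleaf g v
  induction v using Nat.strong_induction_on with
  | _ v ih =>
  intro A B hA hB
  have hR : 0 ≤ ka * Real.sqrt ((pth g v : ℝ) * ((A.card : ℝ) * B.card)) := by positivity
  obtain ⟨hcst, hinp, hand, hor, -, -⟩ := hE n g v
  cases hg : g v with
  | cst b =>
    obtain ⟨h1, -, -⟩ := hcst b hg
    cases b with
    | true =>
      have hB0 : B = ∅ := Finset.eq_empty_of_forall_notMem fun x hx => hB x hx ((h1 _).2 rfl)
      rw [Finset.sum_eq_zero fun a _ => by rw [hB0, Finset.sum_empty]]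
      exact hR
    | false =>
      have hA0 : A = ∅ := Finset.eq_empty_of_forall_notMem fun a ha => by
        have := (h1 _).1 (hA a ha)
        exact Bool.false_ne_true this
      rw [hA0, Finset.sum_empty]
      rw [hA0] at hR
      exact hR
  | inp C =>
    obtain ⟨h1, -, h3⟩ := hinp C hg
    have h4 := hleaf C A B (fun a ha => (h1 _).1 (hA a ha)) (fun x hx hc => hB x hx ((h1 _).2 hc))
    rw [h3]
    simpa using h4
  | and j l =>
    obtain ⟨h1, -, h3⟩ := hand j l hg
    set B1 := B.filter (fun x => ¬ val g (FX x) j.1) with hB1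
    set B2 := B.filter (fun x => ¬ ¬ val g (FX x) j.1) with hB2
    have e1 : ∑ a ∈ A, ∑ x ∈ B, K a x = ∑ a ∈ A, ∑ x ∈ B1, K a x + ∑ a ∈ A, ∑ x ∈ B2, K a x := by
      rw [← Finset.sum_add_distrib]
      exact Finset.sum_congr rfl fun a _ => (Finset.sum_filter_add_sum_filter_not B _ _).symm
    have e2 : (B.card : ℝ) = B1.card + B2.card := by
      have := Finset.card_filter_add_card_filter_not (s := B) (fun x => ¬ val g (FX x) j.1)
      exact_mod_cast this.symm
    have i1 := ih j.1 j.2 A B1 (fun a ha => ((h1 _).1 (hA a ha)).1)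
      (fun x hx => (mem_filter.1 hx).2)
    have i2 := ih l.1 l.2 A B2 (fun a ha => ((h1 _).1 (hA a ha)).2)
      (fun x hx hl => hB x (mem_filter.1 hx).1
        ((h1 _).2 ⟨not_not.1 (mem_filter.1 hx).2, hl⟩))
    have i3 := sqrt_add_le (pth g j.1) (pth g l.1) B1.card B2.card A.card (by positivity)
      (by positivity) (by positivity) (by positivity) (by positivity)
    rw [e1, h3, e2]
    push_cast
    calc ∑ a ∈ A, ∑ x ∈ B1, K a x + ∑ a ∈ A, ∑ x ∈ B2, K a x
        ≤ ka * (Real.sqrt ((pth g j.1 : ℝ) * ((B1.card : ℝ) * A.card)) +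
          Real.sqrt ((pth g l.1 : ℝ) * ((B2.card : ℝ) * A.card))) := by
          rw [mul_add, mul_comm (B1.card : ℝ), mul_comm (B2.card : ℝ)]
          exact add_le_add i1 i2
      _ ≤ ka * Real.sqrt (((pth g j.1 : ℝ) + pth g l.1) * (((B1.card : ℝ) + B2.card) * A.card)) :=
          mul_le_mul_of_nonneg_left i3 hka
      _ = _ := by rw [mul_comm (A.card : ℝ)]
  | or j l =>
    obtain ⟨h1, -, h3⟩ := hor j l hg
    set A1 := A.filter (fun a => val g (FY a) j.1) with hA1
    set A2 := A.filter (fun a => ¬ val g (FY a) j.1) with hA2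
    have e1 : ∑ a ∈ A, ∑ x ∈ B, K a x = ∑ a ∈ A1, ∑ x ∈ B, K a x + ∑ a ∈ A2, ∑ x ∈ B, K a x :=
      (Finset.sum_filter_add_sum_filter_not A _ _).symm
    have e2 : (A.card : ℝ) = A1.card + A2.card := by
      have := Finset.card_filter_add_card_filter_not (s := A) (fun a => val g (FY a) j.1)
      exact_mod_cast this.symm
    have i1 := ih j.1 j.2 A1 B (fun a ha => (mem_filter.1 ha).2)
      (fun x hx hj => hB x hx ((h1 _).2 (Or.inl hj)))
    have i2 := ih l.1 l.2 A2 B
      (fun a ha => ((h1 _).1 (hA a (mem_filter.1 ha).1)).resolve_left (mem_filter.1 ha).2)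
      (fun x hx hl => hB x hx ((h1 _).2 (Or.inr hl)))
    have i3 := sqrt_add_le (pth g j.1) (pth g l.1) A1.card A2.card B.card (by positivity)
      (by positivity) (by positivity) (by positivity) (by positivity)
    rw [e1, h3, e2]
    push_cast
    calc ∑ a ∈ A1, ∑ x ∈ B, K a x + ∑ a ∈ A2, ∑ x ∈ B, K a x
        ≤ ka * (Real.sqrt ((pth g j.1 : ℝ) * ((A1.card : ℝ) * B.card)) +
          Real.sqrt ((pth g l.1 : ℝ) * ((A2.card : ℝ) * B.card))) := by
          rw [mul_add]
          exact add_le_add i1 i2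
      _ ≤ ka * Real.sqrt (((pth g j.1 : ℝ) + pth g l.1) * (((A1.card : ℝ) + A2.card) * B.card)) :=
          mul_le_mul_of_nonneg_left i3 hka

end Pool.Agent.H78.MO
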